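import Pool.Agent.U907.MR.Base

/-!
# Quadratic extensions of a number field with large `4`-rank
-/

set_option autoImplicit false

namespace Pool.Agent.U907.RL

open NumberField IsDedekindDomain nonZeroDivisors WithZero
open Pool.Agent.U907.MR

/-- primes `1` modulo `4` which are squares modulo each other, larger than a given bound -/
theorem exists_primes' (B N : ℕ) : ∃ p : Fin N → ℕ, (∀ i, (p i).Prime ∧ p i % 4 = 1 ∧ B < p i) ∧
    Function.Injective p ∧ ∀ i j, i ≠ j → ∃ s : ℤ, (p j : ℤ) ∣ s ^ 2 - p i := by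
  induction N with
  | zero => exact ⟨fun i => i.elim0, fun i => i.elim0, fun i => i.elim0, fun i => i.elim0⟩
  | succ N ih =>
    obtain ⟨p, h1, h2, h3⟩ := ih
    set Q : ℕ := 4 * ∏ i, p i with hQ
    have hQ0 : 0 < Q := Nat.mul_pos (by norm_num) (Finset.prod_pos fun i _ => (h1 i).1.pos)
    have : NeZero Q := ⟨hQ0.ne'⟩
    obtain ⟨q, hqQ', hq, hq1⟩ := Nat.forall_exists_prime_gt_and_eq_mod (q := Q) (a := 1)
      isUnit_one (Q + B)
    have hqQ : Q < q := by omega
    have hqB : B < q := by omega
    have hle : ∀ i, p i ≤ Q := fun i => Nat.le_of_dvd hQ0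
      ((Finset.dvd_prod_of_mem p (Finset.mem_univ i)).mul_left 4)
    have hqd : (Q : ℤ) ∣ (q : ℤ) - 1 :=
      (ZMod.intCast_eq_intCast_iff_dvd_sub 1 q Q).1 (by push_cast; exact hq1.symm)
    have hq4 : q % 4 = 1 := by
      have h4 : (4 : ℤ) ∣ (Q : ℤ) := by
        rw [hQ]
        push_cast
        exact Dvd.intro _ rfl
      have h5 := h4.trans hqd
      omega
    have hpq : ∀ i, (p i : ℤ) ∣ (q : ℤ) - 1 := by
      intro i
      have h4 : (p i) ∣ Q := (Finset.dvd_prod_of_mem p (Finset.mem_univ i)).mul_left 4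
      have h5 : (p i : ℤ) ∣ (Q : ℤ) := by exact_mod_cast h4
      exact h5.trans hqd
    refine ⟨Fin.cons q p, ?_, ?_, ?_⟩
    · intro i
      refine Fin.cases ?_ (fun j => ?_) i
      · exact ⟨hq, hq4, hqB⟩
      · exact h1 j
    · rw [Fin.cons_injective_iff]
      refine ⟨?_, h2⟩
      rintro ⟨i, hi⟩
      have := hle i
      omega
    · intro i j
      refine Fin.cases ?_ (fun i' => ?_) i <;> refine Fin.cases ?_ (fun j' => ?_) j
      · intro h
        exact absurd rfl h
      · intro _
        refine ⟨1, ?_⟩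
        simp only [Fin.cons_zero, Fin.cons_succ]
        have := hpq j'
        rw [one_pow, dvd_sub_comm]
        exact this
      · intro _
        simp only [Fin.cons_zero, Fin.cons_succ]
        have : Fact q.Prime := ⟨hq⟩
        have : Fact (p i').Prime := ⟨(h1 i').1⟩
        have h5 := (ZMod.exists_sq_eq_prime_iff_of_mod_four_eq_one (p := q) (q := p i') hq4 (by
          have := (h1 i').2.1
          intro h
          rw [h] at this
          omega)).2 (by
            have h6 : ((q : ℕ) : ZMod (p i')) = 1 := by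
              have h7 := (ZMod.intCast_eq_intCast_iff_dvd_sub 1 q (p i')).2 (hpq i')
              push_cast at h7
              exact h7.symm
            rw [h6]
            exact ⟨1, by ring⟩)
        obtain ⟨x, hx⟩ := h5
        refine ⟨(x.val : ℤ), ?_⟩
        rw [← ZMod.intCast_eq_intCast_iff_dvd_sub]
        push_cast
        rw [ZMod.natCast_zmod_val, hx, sq]
      · intro h
        exact h3 i' j' fun h' => h (by rw [h'])

/-- the field `F(√(-D))` -/
theorem exists_quad' (F : Type) [Field F] [NumberField F] (D : ℕ)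
    (hns : ∀ a : F, a ^ 2 ≠ -(D : F)) : ∃ (K : Type) (_ : Field K) (_ : NumberField K)
    (_ : Algebra F K) (θ : K), Module.finrank F K = 2 ∧ θ ^ 2 = -(D : K) ∧
      ∀ y : K, ∃ a b : F, y = algebraMap F K a + algebraMap F K b * θ := by
  have hdeg : (Polynomial.X ^ 2 + Polynomial.C (D : F)).natDegree = 2 :=
    Polynomial.natDegree_X_pow_add_C
  have hirr : Irreducible (Polynomial.X ^ 2 + Polynomial.C (D : F)) := by
    refine Polynomial.irreducible_of_degree_le_three_of_not_isRoot (by rw [hdeg]; decide) ?_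
    intro x hx
    rw [Polynomial.IsRoot.def, Polynomial.eval_add, Polynomial.eval_pow, Polynomial.eval_X,
      Polynomial.eval_C] at hx
    exact hns x (by linear_combination hx)
  set f : Polynomial F := Polynomial.X ^ 2 + Polynomial.C (D : F) with hf
  have : Fact (Irreducible f) := ⟨hirr⟩
  let pb := AdjoinRoot.powerBasis hirr.ne_zero
  have hdim : pb.dim = 2 := by rw [AdjoinRoot.powerBasis_dim, hdeg]
  have : FiniteDimensional F (AdjoinRoot f) := pb.finite
  have : CharZero (AdjoinRoot f) := charZero_of_injective_algebraMap (algebraMap F _).injective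
  have hN : NumberField (AdjoinRoot f) := NumberField.of_module_finite F (AdjoinRoot f)
  refine ⟨AdjoinRoot f, inferInstance, hN, inferInstance, AdjoinRoot.root f, ?_, ?_, ?_⟩
  · rw [pb.finrank, hdim]
  · have h3 := AdjoinRoot.eval₂_root f
    rw [hf, Polynomial.eval₂_add, Polynomial.eval₂_X_pow, Polynomial.eval₂_C] at h3
    rw [eq_neg_iff_add_eq_zero]
    rw [← h3]
    congr 1
  · intro y
    set B := pb.basis.reindex (finCongr hdim) with hB
    refine ⟨B.repr y 0, B.repr y 1, ?_⟩
    conv_lhs => rw [← B.sum_repr y]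
    rw [Fin.sum_univ_two, Algebra.smul_def, Algebra.smul_def, hB, Module.Basis.reindex_apply,
      Module.Basis.reindex_apply, pb.basis_eq_pow, pb.basis_eq_pow]
    simp
    exact Or.inl rfl

/-- exponents of a product of powers of the primes which is a square in `F(√(-D))` -/
theorem even_exp' {F K : Type} [Field F] [NumberField F] [Field K] [NumberField K] [Algebra F K]
    {N : ℕ} {p : Fin (N + 1) → ℕ} (hp : ∀ i, (p i).Prime)
    (hns : ∀ S : Finset (Fin (N + 1)), S.Nonempty → ∀ a : F,
      a ^ 2 ≠ ((∏ i ∈ S, p i : ℕ) : F) ∧ a ^ 2 ≠ -((∏ i ∈ S, p i : ℕ) : F)) {θ : K}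
    (hθ : θ ^ 2 = -((∏ i, p i : ℕ) : K))
    (hrep : ∀ y : K, ∃ a b : F, y = algebraMap F K a + algebraMap F K b * θ)
    (e : Fin (N + 1) → ℤ) (he : e (Fin.last N) = 0) (y : K)
    (h : ∏ i, (p i : K) ^ e i = y ^ 2) (i : Fin (N + 1)) : (2 : ℤ) ∣ e i := by
  classical
  obtain ⟨a, b, rfl⟩ := hrep y
  have hp0 : ∀ i, (p i : F) ≠ 0 := fun i => by exact_mod_cast (hp i).ne_zero
  set r : F := ∏ i, (p i : F) ^ e i with hr
  set D : ℕ := ∏ i, p i with hD
  have hrK : algebraMap F K r = (algebraMap F K a + algebraMap F K b * θ) ^ 2 := by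
    rw [← h, hr, map_prod]
    exact Finset.prod_congr rfl fun i _ => by rw [map_zpow₀, map_natCast]
  have h1 : algebraMap F K (r - a ^ 2 + b ^ 2 * D) = algebraMap F K (2 * a * b) * θ := by
    simp only [map_add, map_sub, map_mul, map_pow, map_natCast, map_ofNat]
    linear_combination hrK + (algebraMap F K b) ^ 2 * hθ
  have hDns : ∀ c : F, c ^ 2 ≠ -(D : F) := fun c => (hns Finset.univ Finset.univ_nonempty c).2
  have h2 : 2 * a * b = 0 := by
    by_contra hne
    have hneK : algebraMap F K (2 * a * b) ≠ 0 := by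
      rw [Ne, map_eq_zero_iff _ (algebraMap F K).injective]
      exact hne
    have h3 : θ = algebraMap F K ((r - a ^ 2 + b ^ 2 * D) / (2 * a * b)) := by
      rw [map_div₀, h1]
      field_simp
    refine hDns ((r - a ^ 2 + b ^ 2 * D) / (2 * a * b)) ((algebraMap F K).injective ?_)
    rw [map_pow, ← h3, hθ, map_neg, map_natCast]
  have h3 : r = a ^ 2 - b ^ 2 * D := by
    rw [h2, map_zero, zero_mul, map_eq_zero_iff _ (algebraMap F K).injective] at h1
    linear_combination h1
  -- the parts of the exponents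
  set S : Finset (Fin (N + 1)) := Finset.univ.filter fun i => e i % 2 = 1 with hS
  set q : F := ∏ i, (p i : F) ^ (e i / 2) with hq
  have hq0 : q ≠ 0 := Finset.prod_ne_zero_iff.2 fun i _ => zpow_ne_zero _ (hp0 i)
  have hrq : r = q ^ 2 * ((∏ i ∈ S, p i : ℕ) : F) := by
    have e1 : ((∏ i ∈ S, p i : ℕ) : F) = ∏ i, (p i : F) ^ (e i % 2) := by
      push_cast
      rw [hS, Finset.prod_filter]
      refine Finset.prod_congr rfl fun i _ => ?_
      rcases Int.emod_two_eq_zero_or_one (e i) with h4 | h4
      · rw [h4]; simp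
      · rw [h4]; simp
    rw [e1, hq, hr, ← Finset.prod_pow, ← Finset.prod_mul_distrib]
    refine Finset.prod_congr rfl fun i _ => ?_
    rw [← zpow_natCast, ← zpow_mul, ← zpow_add₀ (hp0 i)]
    congr 1
    push_cast
    omega
  have hSe : S = ∅ := by
    by_contra hne
    have hne' : S.Nonempty := Finset.nonempty_iff_ne_empty.2 hne
    rcases mul_eq_zero.1 h2 with h4 | h4
    · have ha : a = 0 := by
        rcases mul_eq_zero.1 h4 with h5 | h5
        · exact absurd h5 two_ne_zero
        · exact h5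
      have hlast : Fin.last N ∈ Sᶜ := by
        rw [Finset.mem_compl, hS, Finset.mem_filter, he]
        simp
      have hsplit : (D : F) = ((∏ i ∈ S, p i : ℕ) : F) * ((∏ i ∈ Sᶜ, p i : ℕ) : F) := by
        rw [hD, ← Nat.cast_mul, Finset.prod_mul_prod_compl]
      have hS0 : ((∏ i ∈ S, p i : ℕ) : F) ≠ 0 := by
        rw [Nat.cast_ne_zero]
        exact Finset.prod_ne_zero_iff.2 fun i _ => (hp i).ne_zero
      have h5 : q ^ 2 = -((∏ i ∈ Sᶜ, p i : ℕ) : F) * b ^ 2 := by
        rw [hrq, ha, hsplit] at h3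
        apply mul_right_cancel₀ hS0
        linear_combination h3
      have hb : b ≠ 0 := by
        rintro rfl
        rw [zero_pow two_ne_zero, mul_zero] at h5
        exact hq0 (pow_eq_zero_iff two_ne_zero |>.1 h5)
      refine (hns Sᶜ ⟨_, hlast⟩ (q / b)).2 ?_
      rw [div_pow, h5]
      field_simp
    · refine (hns S hne' (a / q)).1 ?_
      rw [h4, hrq] at h3
      rw [div_pow, div_eq_iff (pow_ne_zero 2 hq0)]
      linear_combination -h3
  have h5 : i ∉ S := by rw [hSe]; exact Finset.notMem_empty i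
  rw [hS, Finset.mem_filter] at h5
  have h6 : ¬ e i % 2 = 1 := fun h => h5 ⟨Finset.mem_univ _, h⟩
  omega

end Pool.Agent.U907.RL
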