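import Pool.Agent.U907.MR.Base

/-!
# Only finitely many squarefree integers are squares in a number field
-/

set_option autoImplicit false

namespace Pool.Agent.U907.RL

open NumberField IntermediateField

theorem sqfree_eq {r s k : ℤ} (hr : Squarefree r) (hs : Squarefree s) (h : r * s = k ^ 2) :
    r = s := by
  have hr0 : r ≠ 0 := hr.ne_zero
  have h1 : r ∣ k ^ 2 := ⟨s, h.symm⟩
  have h2 : r ∣ k := (hr.dvd_pow_iff_dvd two_ne_zero).1 h1
  obtain ⟨c, rfl⟩ := h2
  have h3 : s = r * c ^ 2 := by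
    apply mul_left_cancel₀ hr0
    rw [h]
    ring
  have h4 : IsUnit c := hs c ⟨r, by rw [h3]; ring⟩
  have h5 : c ^ 2 = 1 := by
    rcases Int.isUnit_iff.1 h4 with h | h <;> rw [h] <;> norm_num
  rw [h3, h5, mul_one]

theorem mem_adj {F : Type} [Field F] [NumberField F] {x y : F} {r : ℤ} (hx : x ^ 2 = (r : F))
    (hy : y ∈ ℚ⟮x⟯) : ∃ a b : ℚ, y = a + b * x := by
  have hint : IsAlgebraic ℚ x := Algebra.IsAlgebraic.isAlgebraic x
  have h1 : y ∈ Algebra.adjoin ℚ {x} := by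
    rw [← IntermediateField.adjoin_simple_toSubalgebra_of_isAlgebraic hint]
    exact hy
  refine Algebra.adjoin_induction (p := fun y _ => ∃ a b : ℚ, y = a + b * x) ?_ ?_ ?_ ?_ h1
  · intro z hz
    rw [Set.mem_singleton_iff] at hz
    exact ⟨0, 1, by rw [hz]; simp⟩
  · intro q
    exact ⟨q, 0, by simp⟩
  · rintro u v _ _ ⟨a, b, rfl⟩ ⟨c, d, rfl⟩
    exact ⟨a + c, b + d, by push_cast; ring⟩
  · rintro u v _ _ ⟨a, b, rfl⟩ ⟨c, d, rfl⟩
    refine ⟨a * c + b * d * r, a * d + b * c, ?_⟩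
    push_cast
    linear_combination ((b : F) * d) * hx

theorem rat_sq_int {n : ℤ} {a : ℚ} (h : a ^ 2 = n) : ∃ k : ℤ, n = k ^ 2 := by
  have h1 : IsSquare ((n : ℤ) : ℚ) := ⟨a, by rw [← h, sq]⟩
  have h2 : IsSquare n := Rat.isSquare_intCast_iff.1 h1
  obtain ⟨k, hk⟩ := h2
  exact ⟨k, by rw [hk, sq]⟩

theorem adj_inj {F : Type} [Field F] [NumberField F] {x y : F} {r s : ℤ} (hr : Squarefree r)
    (hs : Squarefree s) (hx : x ^ 2 = (r : F)) (hy : y ^ 2 = (s : F)) (h : ℚ⟮x⟯ = ℚ⟮y⟯) : r = s := by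
  have hyx : y ∈ ℚ⟮x⟯ := by rw [h]; exact mem_adjoin_simple_self ℚ y
  have hxy : x ∈ ℚ⟮y⟯ := by rw [← h]; exact mem_adjoin_simple_self ℚ x
  obtain ⟨a, b, hab⟩ := mem_adj hx hyx
  obtain ⟨c, d, hcd⟩ := mem_adj hy hxy
  have hr0 : (r : ℚ) ≠ 0 := by exact_mod_cast hr.ne_zero
  -- a rational root is possible only for `1`
  have key : ∀ {t : ℤ} {q : ℚ}, Squarefree t → (q : ℚ) ^ 2 = t → t = 1 := by
    intro t q ht hq
    obtain ⟨k, hk⟩ := rat_sq_int hq
    exact sqfree_eq ht squarefree_one (by rw [mul_one, hk])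
  by_cases hrat : ∃ q : ℚ, (q : F) = x
  · obtain ⟨q, hq⟩ := hrat
    have h1 : q ^ 2 = (r : ℚ) := by
      have : ((q ^ 2 : ℚ) : F) = ((r : ℚ) : F) := by push_cast; rw [hq, hx]
      exact_mod_cast this
    have hr1 := key hr h1
    have h2 : ((a + b * q : ℚ) : F) = y := by rw [hab, ← hq]; push_cast; ring
    have h3 : (a + b * q) ^ 2 = (s : ℚ) := by
      have : (((a + b * q) ^ 2 : ℚ) : F) = ((s : ℚ) : F) := by
        rw [Rat.cast_pow, h2, hy]; push_cast; rfl
      exact_mod_cast this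
    rw [hr1, key hs h3]
  · have h1 : ((s - a ^ 2 - b ^ 2 * r : ℚ) : F) = ((2 * a * b : ℚ) : F) * x := by
      push_cast
      rw [← hy, hab]
      linear_combination (b : F) ^ 2 * hx
    have h2 : 2 * a * b = 0 := by
      by_contra hne
      have hneF : ((2 * a * b : ℚ) : F) ≠ 0 := by exact_mod_cast hne
      refine hrat ⟨(s - a ^ 2 - b ^ 2 * r) / (2 * a * b), ?_⟩
      rw [Rat.cast_div, h1]
      field_simp
    have h3 : (s : ℚ) - a ^ 2 - b ^ 2 * r = 0 := by
      rw [h2, Rat.cast_zero, zero_mul] at h1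
      exact_mod_cast h1
    rcases mul_eq_zero.1 h2 with h4 | h4
    · have ha : a = 0 := by linarith
      have h5 : (b * r) ^ 2 = ((r * s : ℤ) : ℚ) := by
        rw [ha] at h3
        push_cast
        linear_combination -(r : ℚ) * h3
      obtain ⟨k, hk⟩ := rat_sq_int h5
      exact sqfree_eq hr hs hk
    · -- `y` is rational
      exfalso
      rw [h4, Rat.cast_zero, zero_mul, add_zero] at hab
      refine hrat ⟨c + d * a, ?_⟩
      rw [hcd, hab]
      push_cast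
      ring

theorem exists_bound (F : Type) [Field F] [NumberField F] : ∃ B : ℕ, ∀ r : ℤ, Squarefree r →
    (∃ a : F, a ^ 2 = (r : F)) → r.natAbs ≤ B := by
  classical
  have hfin : Finite (IntermediateField ℚ F) :=
    Field.finite_intermediateField_of_exists_primitive_element ℚ F
      (Field.exists_primitive_element ℚ F)
  have hT : Set.Finite {r : ℤ | Squarefree r ∧ ∃ a : F, a ^ 2 = (r : F)} := by
    have : ∀ r : {r : ℤ | Squarefree r ∧ ∃ a : F, a ^ 2 = (r : F)}, ∃ a : F, a ^ 2 = ((r : ℤ) : F) :=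
      fun r => r.2.2
    choose f hf using this
    have hinj : Function.Injective fun r : {r : ℤ | Squarefree r ∧ ∃ a : F, a ^ 2 = (r : F)} =>
        ℚ⟮f r⟯ := by
      intro r s hrs
      exact Subtype.ext (adj_inj r.2.1 s.2.1 (hf r) (hf s) hrs)
    exact Set.finite_coe_iff.1 (Finite.of_injective _ hinj)
  obtain ⟨B, hB⟩ := (hT.image Int.natAbs).bddAbove
  exact ⟨B, fun r hr ha => hB ⟨r, ⟨hr, ha⟩, rfl⟩⟩

end Pool.Agent.U907.RL
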