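import Pool.Agent.U907.RL.Sq
import Pool.Agent.U907.RL.Quad

/-!
# Every number field has quadratic extensions with large `4`-rank
-/

set_option autoImplicit false

namespace Pool.Agent.U907.RL

open NumberField IsDedekindDomain nonZeroDivisors WithZero
open Pool.Agent.U907.MR

theorem nonsq {F : Type} [Field F] [NumberField F] {B : ℕ}
    (hB : ∀ r : ℤ, Squarefree r → (∃ a : F, a ^ 2 = (r : F)) → r.natAbs ≤ B) {N : ℕ}
    {p : Fin N → ℕ} (hp : ∀ i, (p i).Prime ∧ B < p i) (hinj : Function.Injective p)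
    (S : Finset (Fin N)) (hS : S.Nonempty) (a : F) :
    a ^ 2 ≠ ((∏ i ∈ S, p i : ℕ) : F) ∧ a ^ 2 ≠ -((∏ i ∈ S, p i : ℕ) : F) := by
  obtain ⟨j, hj⟩ := hS
  have hsf : Squarefree (∏ i ∈ S, p i) := by
    refine Finset.squarefree_prod_of_pairwise_isCoprime ?_ fun j _ => (hp j).1.prime.squarefree
    intro a _ b _ hab
    show IsRelPrime (p a) (p b)
    rw [← Nat.coprime_iff_isRelPrime]
    exact (Nat.coprime_primes (hp a).1 (hp b).1).2 fun h => hab (hinj h)
  have hle : p j ≤ ∏ i ∈ S, p i := Nat.le_of_dvd (Finset.prod_pos fun i _ => (hp i).1.pos)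
    (Finset.dvd_prod_of_mem p hj)
  have hlt : B < ∏ i ∈ S, p i := lt_of_lt_of_le (hp j).2 hle
  have hsz : Squarefree ((∏ i ∈ S, p i : ℕ) : ℤ) := Int.squarefree_natCast.2 hsf
  constructor
  · intro h
    have h1 := hB _ hsz ⟨a, by rw [h]; push_cast; rfl⟩
    rw [Int.natAbs_natCast] at h1
    omega
  · intro h
    have hsz' : Squarefree (-((∏ i ∈ S, p i : ℕ) : ℤ)) := by
      rw [← Int.squarefree_natAbs, Int.natAbs_neg, Int.natAbs_natCast]
      exact hsf
    have h1 := hB _ hsz' ⟨a, by rw [h]; push_cast; rfl⟩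
    rw [Int.natAbs_neg, Int.natAbs_natCast] at h1
    omega

/-- If `(ℤ/m)^N` is contained in the class group of `F` and `m` is odd then a quadratic extension has
large `4 m`-rank. -/
theorem quad_step {F : Type} [Field F] [NumberField F] {m N : ℕ} (hm : 1 ≤ m) (hodd : ¬ 2 ∣ m)
    (Dt : RData F m 1 N) :
    ∃ (K : Type) (_ : Field K) (_ : NumberField K) (_ : Algebra F K), Module.finrank F K = 2 ∧
    ∀ R, R + Module.finrank ℚ F * 2 ≤ N →
      ∃ f : Multiplicative (Fin R → ZMod (4 * m)) →* ClassGroup (𝓞 K), Function.Injective f := by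
  classical
  obtain ⟨B, hB⟩ := exists_bound F
  obtain ⟨p, hp, hinj, hsq⟩ := exists_primes' B (N + 1)
  have hns := fun (S : Finset (Fin (N + 1))) (hS : S.Nonempty) (a : F) =>
    nonsq hB (fun i => ⟨(hp i).1, (hp i).2.2⟩) hinj S hS a
  set D : ℕ := ∏ i, p i with hD
  have hD0 : 0 < D := Finset.prod_pos fun i _ => (hp i).1.pos
  set E : Fin (N + 1) → ℕ := fun i => ∏ j ∈ Finset.univ.erase i, p j with hE
  have hDE : ∀ i, D = p i * E i := fun i => (Finset.mul_prod_erase _ _ (Finset.mem_univ i)).symm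
  have hpE : ∀ i, Nat.Coprime (p i) (E i) := fun i => Nat.Coprime.prod_right fun j hj =>
    (Nat.coprime_primes (hp i).1 (hp j).1).2 fun h => (Finset.ne_of_mem_erase hj) (hinj h).symm
  have hE4 : ∀ i, E i % 4 = 1 := fun i => prod_mod p _ fun j _ => (hp j).2.1
  have hEsf : ∀ i, Squarefree (E i) := by
    intro i
    refine Finset.squarefree_prod_of_pairwise_isCoprime ?_ fun j _ => (hp j).1.prime.squarefree
    intro a _ b _ hab
    show IsRelPrime (p a) (p b)
    rw [← Nat.coprime_iff_isRelPrime]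
    exact (Nat.coprime_primes (hp a).1 (hp b).1).2 fun h => hab (hinj h)
  have hsol : ∀ i, ∃ X Y Z : ℤ, Y ≠ 0 ∧ Z ^ 2 - (p i : ℤ) * X ^ 2 = (E i : ℤ) * Y ^ 2 ∧
      ∃ u v w : ℤ, u * X + v * Y + w * Z = 1 := by
    intro i
    refine primitive ?_
    have h1 := leg_prod (p i : ℤ) (fun j => (p j : ℤ)) (Finset.univ.erase i) fun j hj =>
      leg2 (hp i).1 (hp j).1 (fun h => (Finset.ne_of_mem_erase hj) (hinj h).symm)
        (hsq i j (Finset.ne_of_mem_erase hj).symm) (hsq j i (Finset.ne_of_mem_erase hj))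
    rw [← Nat.cast_prod] at h1
    exact h1
  choose X Y Z hY hXYZ u v w huvw using hsol
  obtain ⟨K, _, _, _, θ, hfr, hθ, hrep⟩ := exists_quad' F D
    (fun a => (hns Finset.univ Finset.univ_nonempty a).2)
  refine ⟨K, inferInstance, inferInstance, inferInstance, hfr, fun R hR => ?_⟩
  have hZ0 : ∀ i, Z i ≠ 0 := by
    intro i h0
    have h1 := hXYZ i
    rw [h0] at h1
    have hE0 : (0 : ℤ) < E i := by
      have := hE4 i
      exact_mod_cast (show 0 < E i by omega)
    have h2 : 0 < (E i : ℤ) * Y i ^ 2 := mul_pos hE0 (by have := hY i; positivity)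
    have h3 : 0 ≤ (p i : ℤ) * X i ^ 2 := by positivity
    linarith
  have hp0 : ∀ i, (p i : K) ≠ 0 := fun i => by exact_mod_cast (hp i).1.ne_zero
  have hα0 : ∀ i, ((p i : K) * X i + Y i * θ) ≠ 0 := by
    intro i h0
    have hαα : ((p i : K) * X i + Y i * θ) * (p i * X i - Y i * θ) = p i * Z i ^ 2 := by
      have h1 : (Z i : K) ^ 2 - p i * X i ^ 2 = E i * Y i ^ 2 := by exact_mod_cast hXYZ i
      have h2 : (D : K) = p i * E i := by rw [hDE i]; push_cast; ring
      linear_combination -(Y i : K) ^ 2 * hθ + (Y i : K) ^ 2 * h2 - p i * h1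
    rw [h0, zero_mul, eq_comm, mul_eq_zero] at hαα
    rcases hαα with h | h
    · exact hp0 i h
    · exact hZ0 i (by exact_mod_cast (pow_eq_zero_iff two_ne_zero).1 h)
  have hg0 : ∀ i : Fin N, ((p i.castSucc : K) * X i.castSucc + Y i.castSucc * θ) ^ 2 /
      p i.castSucc ≠ 0 := fun i =>
    div_ne_zero (pow_ne_zero 2 (hα0 i.castSucc)) (hp0 i.castSucc)
  -- the elements of `F`
  have htow : ∀ z : 𝓞 F, algebraMap (𝓞 K) K (algebraMap (𝓞 F) (𝓞 K) z) =
      algebraMap F K (algebraMap (𝓞 F) F z) := by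
    intro z
    rw [← IsScalarTower.algebraMap_apply, ← IsScalarTower.algebraMap_apply]
  have hinjF : Function.Injective (algebraMap (𝓞 F) F) := RingOfIntegers.coe_injective
  have hβF : ∀ i, algebraMap (𝓞 F) F (Dt.α i) ≠ 0 := fun i h =>
    Dt.hα0 i ((map_eq_zero_iff _ hinjF).1 h)
  have hβK : ∀ i, algebraMap F K (algebraMap (𝓞 F) F (Dt.α i)) ≠ 0 := fun i =>
    (map_ne_zero_iff _ (algebraMap F K).injective).2 (hβF i)
  have hβO : ∀ i, algebraMap (𝓞 F) (𝓞 K) (Dt.α i) ≠ 0 := by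
    intro i h
    have h1 := htow (Dt.α i)
    rw [h, map_zero] at h1
    exact hβK i h1.symm
  have hm0 : m ≠ 0 := by omega
  set g4 : Fin N → Kˣ := fun i => Units.mk0 _ (hg0 i) with hg4
  set gm : Fin N → Kˣ := fun i => Units.mk0 _ (hβK i) with hgm
  refine clsg K N (4 * m) R (by omega) (by
    have h1 := rank_le K
    have h2 := Module.finrank_mul_finrank ℚ F K
    rw [hfr] at h2
    omega) (fun i => g4 i ^ m * gm i ^ 4) ?_ ?_
  · intro i
    obtain ⟨J, hJ⟩ := Pool.Agent.W64.CG.val K 4 (g4 i) (by norm_num) fun v =>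
      val4 v hθ (hDE i.castSucc) (hp i.castSucc).1 (hpE i.castSucc) (hEsf i.castSucc)
        (hp i.castSucc).2.1 (hE4 i.castSucc) (hY i.castSucc) (hXYZ i.castSucc) (huvw i.castSucc)
    obtain ⟨I, hI⟩ := frac_of (algebraMap (𝓞 F) (𝓞 K) (Dt.α i)) (hβO i)
      ((Dt.A i).map (algebraMap (𝓞 F) (𝓞 K))) m hm0 (by
        rw [← Ideal.map_pow, ← Dt.hα i, Ideal.map_span, Set.image_singleton]) (gm i) (by
        rw [htow]; rfl)
    refine ⟨J * I, ?_⟩
    rw [map_mul, map_pow, map_pow, ← hJ, ← hI, mul_pow, ← pow_mul, ← pow_mul, mul_comm m 4]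
  · intro ℓ hℓ hℓ4 e y hy i
    have hy' : ∏ i : Fin N, ((g4 i : K) ^ m * (gm i : K) ^ 4) ^ e i = (y : K) ^ ℓ := by
      have h2 := congrArg (Units.val) hy
      rw [Units.val_pow_eq_pow_val, Units.coe_prod] at h2
      rw [← h2]
      refine Finset.prod_congr rfl fun i _ => ?_
      rw [Units.val_zpow_eq_zpow_val, Units.val_mul, Units.val_pow_eq_pow_val,
        Units.val_pow_eq_pow_val]
    have hg4n : ∀ i, (g4 i : K) ≠ 0 := fun i => (g4 i).ne_zero
    have hgmn : ∀ i, (gm i : K) ≠ 0 := fun i => (gm i).ne_zero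
    have hsplit : (∏ i : Fin N, (g4 i : K) ^ ((m : ℤ) * e i)) *
        (∏ i : Fin N, (gm i : K) ^ (4 * e i)) = (y : K) ^ ℓ := by
      rw [← hy', ← Finset.prod_mul_distrib]
      refine Finset.prod_congr rfl fun i _ => ?_
      rw [mul_zpow, ← zpow_natCast, ← zpow_natCast, ← zpow_mul, ← zpow_mul]
      norm_cast
    rcases hℓ.eq_two_or_odd' with rfl | hℓodd
    · -- `ℓ = 2`
      have h1 : ∏ i : Fin N, (g4 i : K) ^ ((m : ℤ) * e i) =
          ((y : K) / ∏ i : Fin N, (gm i : K) ^ (2 * e i)) ^ 2 := by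
        have h2 : (∏ i : Fin N, (gm i : K) ^ (2 * e i)) ^ 2 = ∏ i : Fin N, (gm i : K) ^ (4 * e i) := by
          rw [← Finset.prod_pow]
          refine Finset.prod_congr rfl fun i _ => ?_
          rw [← zpow_natCast, ← zpow_mul]
          congr 1
          push_cast
          ring
        have h3 : ∏ i : Fin N, (gm i : K) ^ (4 * e i) ≠ 0 :=
          Finset.prod_ne_zero_iff.2 fun i _ => zpow_ne_zero _ (hgmn i)
        rw [div_pow, h2, eq_div_iff h3, hsplit]
      have h3 : ∏ i : Fin N, (p i.castSucc : K) ^ ((m : ℤ) * e i) =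
          ((∏ i : Fin N, ((p i.castSucc : K) * X i.castSucc + Y i.castSucc * θ) ^ ((m : ℤ) * e i)) /
            ((y : K) / ∏ i : Fin N, (gm i : K) ^ (2 * e i))) ^ 2 := by
        rw [div_pow, ← h1, ← Finset.prod_pow, ← Finset.prod_div_distrib]
        refine Finset.prod_congr rfl fun i _ => ?_
        have h4 : (((p i.castSucc : K) * X i.castSucc + Y i.castSucc * θ)) ^ ((m : ℤ) * e i) ≠ 0 :=
          zpow_ne_zero _ (hα0 i.castSucc)
        have h5 : (p i.castSucc : K) ^ ((m : ℤ) * e i) ≠ 0 := zpow_ne_zero _ (hp0 i.castSucc)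
        rw [hg4, Units.val_mk0, div_zpow, ← zpow_natCast, ← zpow_natCast, ← zpow_mul, ← zpow_mul,
          mul_comm ((m : ℤ) * e i)]
        field_simp
        rw [div_self (zpow_ne_zero _ (hα0 i.castSucc))]
      have h6 : ∏ i : Fin (N + 1), (p i : K) ^
          (Fin.snoc (α := fun _ => ℤ) (fun i => (m : ℤ) * e i) 0 : Fin (N + 1) → ℤ) i =
          ((∏ i : Fin N, ((p i.castSucc : K) * X i.castSucc + Y i.castSucc * θ) ^ ((m : ℤ) * e i)) /
            ((y : K) / ∏ i : Fin N, (gm i : K) ^ (2 * e i))) ^ 2 := by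
        rw [← h3, Fin.prod_univ_castSucc]
        simp
      have h7 := even_exp' (fun i => (hp i).1) hns hθ hrep _ (by simp) _ h6 i.castSucc
      have h8 : (2 : ℤ) ∣ (m : ℤ) * e i := by simpa using h7
      rcases Int.prime_two.dvd_or_dvd h8 with h9 | h9
      · exact absurd (by exact_mod_cast h9) hodd
      · exact_mod_cast h9
    · -- `ℓ` is odd
      have hℓm : ℓ ∣ m := by
        rcases hℓ.dvd_mul.1 hℓ4 with h1 | h1
        · exfalso
          have h2 : ℓ ∣ 2 := hℓ.dvd_of_dvd_pow (show ℓ ∣ 2 ^ 2 by simpa using h1)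
          have h3 := (Nat.prime_dvd_prime_iff_eq hℓ Nat.prime_two).1 h2
          rw [h3] at hℓodd
          exact absurd hℓodd (by decide)
        · exact h1
      obtain ⟨t, ht⟩ := hℓm
      set Yv : K := (y : K) / ∏ i : Fin N, (g4 i : K) ^ ((t : ℤ) * e i) with hYv
      set x : F := ∏ i : Fin N, (algebraMap (𝓞 F) F (Dt.α i)) ^ (4 * e i) with hx
      have hP0 : ∏ i : Fin N, (g4 i : K) ^ ((t : ℤ) * e i) ≠ 0 :=
        Finset.prod_ne_zero_iff.2 fun i _ => zpow_ne_zero _ (hg4n i)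
      have hxY : algebraMap F K x = Yv ^ ℓ := by
        have h1 : algebraMap F K x = ∏ i : Fin N, (gm i : K) ^ (4 * e i) := by
          rw [hx, map_prod]
          refine Finset.prod_congr rfl fun i _ => ?_
          rw [map_zpow₀]
          rfl
        have h2 : (∏ i : Fin N, (g4 i : K) ^ ((t : ℤ) * e i)) ^ ℓ =
            ∏ i : Fin N, (g4 i : K) ^ ((m : ℤ) * e i) := by
          rw [← Finset.prod_pow]
          refine Finset.prod_congr rfl fun i _ => ?_
          rw [← zpow_natCast, ← zpow_mul]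
          congr 1
          rw [ht]
          push_cast
          ring
        rw [h1, hYv, div_pow, h2, eq_div_iff (by rw [← h2]; exact pow_ne_zero _ hP0), mul_comm,
          hsplit]
      -- the norm
      have hnorm : x ^ 2 = (Algebra.norm F Yv) ^ ℓ := by
        rw [← map_pow, ← hxY, Algebra.norm_algebraMap, hfr]
      obtain ⟨s, hs⟩ := hℓodd
      have hx0 : x ≠ 0 := Finset.prod_ne_zero_iff.2 fun i _ => zpow_ne_zero _ (hβF i)
      have hN0 : Algebra.norm F Yv ≠ 0 := by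
        intro h
        rw [h, zero_pow hℓ.ne_zero] at hnorm
        exact hx0 (pow_eq_zero_iff two_ne_zero |>.1 hnorm)
      have hc : (x / (Algebra.norm F Yv) ^ s) ^ ℓ = x := by
        rw [div_pow, ← pow_mul, mul_comm s ℓ, pow_mul, ← hnorm, ← pow_mul, div_eq_iff
          (pow_ne_zero _ hx0), ← pow_succ']
        congr 1
      have hc0 : x / (Algebra.norm F Yv) ^ s ≠ 0 := div_ne_zero hx0 (pow_ne_zero _ hN0)
      have h1 := Dt.ind ℓ hℓ (by rw [mul_one, ht]; exact Nat.dvd_mul_right _ _) (fun i => 4 * e i)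
        (Units.mk0 _ hc0) (by rw [Units.val_mk0, hc]) i
      have hℓp : Prime (ℓ : ℤ) := Nat.prime_iff_prime_int.1 hℓ
      rcases hℓp.dvd_or_dvd h1 with h2 | h2
      · exfalso
        have h3 : ℓ ∣ 4 := by exact_mod_cast h2
        have h4 : ℓ ∣ 2 := hℓ.dvd_of_dvd_pow (show ℓ ∣ 2 ^ 2 by simpa using h3)
        have h5 := (Nat.prime_dvd_prime_iff_eq hℓ Nat.prime_two).1 h4
        omega
      · exact h2

end Pool.Agent.U907.RL
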